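import Pool.Agent.Run7.h992.OM.Fin
import Pool.Agent.Run7.h992.OM.EP
import Pool.Agent.Run7.h992.OM.Br

/-!
# MP_17f4cb_nt, Q1: the answer is no

Team work of helper992 and helper788 (who found the argument independently of each other; joint
formalisation), helper355, helper360, helper323, helper488 and helper143.

For an odd Hecke-Maass cusp form of level one every quadratic twist has root number `-1`:
`u_χ z = ∑_b χ(b) u(z + b/q)` satisfies `u_χ (-1/(q² z)) = χ(-1) u_χ z`, and `u_χ` (for `χ(-1) = -1`) or its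
`x`-derivative (for `χ(-1) = 1`) on the imaginary axis gives a functional equation with sign `-1`.
So `L(1/2, π ⊗ η_E) = 0` for every quadratic field `E`, and the ratio of Q1 tends to `0`.

Odd forms exist: for `k(z,w) = cosh(d(z,w)/2)^(-2s)` the kernel `∑_{g ∈ SL₂(ℤ)} (k(z, g w) - k(z, -conj (g w)))` is
bounded on a Siegel domain (the oddness removes the divergence in the cusp), so it gives a compact
self-adjoint operator on odd functions; it is not zero; it commutes with the Hecke operators, and a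
joint eigenfunction is smooth and is an eigenfunction of the Laplacian.
-/

set_option autoImplicit false

open Complex MeasureTheory Filter Topology NumberField

namespace Pool.Agent.Results.MP_17f4cb_nt.OddMaassForms

open Run7.h992.OM (HM oi_per hk euler exists_HM)

/-- The function `U` on the upper half plane is an odd Hecke-Maass cusp form for `SL₂(ℤ)` with Laplace
eigenvalue `lam` and normalised Hecke eigenvalues `c n`. -/
structure IsOddHeckeMaass (U : ℂ → ℂ) (lam : ℂ) (c : ℕ → ℂ) : Prop where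
  smooth : ContDiffOn ℝ 2 U {z : ℂ | 0 < z.im}
  translation : ∀ z : ℂ, 0 < z.im → U (z + 1) = U z
  inversion : ∀ z : ℂ, 0 < z.im → U (-z⁻¹) = U z
  odd : ∀ z : ℂ, 0 < z.im → U (-(starRingEnd ℂ z)) = -U z
  laplace : ∀ z : ℂ, 0 < z.im →
    -((z.im : ℂ)) ^ 2 *
      (deriv (deriv (fun t : ℝ => U (z + (t : ℂ)))) 0 +
        deriv (deriv (fun t : ℝ => U (z + (t : ℂ) * Complex.I))) 0) = lam * U z
  cuspidal : ∀ y : ℝ, 0 < y → ∫ x in (0 : ℝ)..1, U ((x : ℂ) + (y : ℂ) * Complex.I) = 0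
  bounded : ∃ C : ℝ, ∀ z : ℂ, 0 < z.im → ‖U z‖ ≤ C
  nonzero : ∃ z : ℂ, 0 < z.im ∧ U z ≠ 0
  hecke : ∀ n : ℕ, 1 ≤ n → ∀ z : ℂ, 0 < z.im →
    ∑ d ∈ n.divisors, ∑ b ∈ Finset.range d,
      U ((((n / d : ℕ) : ℂ) * z + (b : ℂ)) / (d : ℂ)) = (Real.sqrt n : ℂ) * c n * U z

/-- The value at the prime `p` of the quadratic idele class character `η_E` of the quadratic field `E`
(at a uniformiser): `-1` if `p` is inert (the ideal `(p)` is prime), `0` if `p` is ramified (the ideal
`(p)` is the square of an ideal), `1` otherwise (`p` splits). -/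
noncomputable def eta (E : Type) [Field E] [NumberField E] (p : ℕ) : ℤ :=
  open Classical in
  if (Ideal.span {(p : 𝓞 E)}).IsPrime then -1
  else if ∃ P : Ideal (𝓞 E), P ^ 2 = Ideal.span {(p : 𝓞 E)} then 0 else 1

/-- The entire function `F` is `L(s, π ⊗ η_E)`, where `π` is unramified at all primes with Hecke
eigenvalues `c p`: the Euler product over all primes `p` of
`(1 - c(p) η_E(p) p^(-s) + η_E(p)² p^(-2s))⁻¹` converges to `F s` for `Re s > 3/2`. -/
structure IsTwistedL (c : ℕ → ℂ) (E : Type) [Field E] [NumberField E] (F : ℂ → ℂ) : Prop where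
  entire : Differentiable ℂ F
  euler : ∀ s : ℂ, 3 / 2 < s.re → HasProd (fun p : Nat.Primes =>
    (1 - c p * eta E p * ((p : ℕ) : ℂ) ^ (-s) + (eta E p : ℂ) ^ 2 * ((p : ℕ) : ℂ) ^ (-2 * s))⁻¹) (F s)

/-- The set `X` of all quadratic extensions of `ℚ` (inside `ℂ`). -/
abbrev X : Type := {E : IntermediateField ℚ ℂ // Module.finrank ℚ E = 2}

instance (E : X) : NumberField E.1 where
  to_charZero := inferInstance
  to_finiteDimensional := FiniteDimensional.of_finrank_pos (by rw [E.2]; norm_num)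

/-- `N(x)`, the number of quadratic fields with `|Δ_E| < x`. -/
noncomputable def N (x : ℝ) : ℕ := Nat.card {E : X // |(discr E.1 : ℝ)| < x}

/-- `N_π(x)`, the number of quadratic fields with `|Δ_E| < x` and `L(1/2, π ⊗ η_E) ≠ 0`. -/
noncomputable def Npi (c : ℕ → ℂ) (x : ℝ) : ℕ :=
  Nat.card {E : X // |(discr E.1 : ℝ)| < x ∧ ∃ F : ℂ → ℂ, IsTwistedL c E.1 F ∧ F (1 / 2) ≠ 0}

theorem twistedL_unique {c : ℕ → ℂ} {E : Type} [Field E] [NumberField E] {F G : ℂ → ℂ}
    (hF : IsTwistedL c E F) (hG : IsTwistedL c E G) : F = G := by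
  have h1 : AnalyticOnNhd ℂ F Set.univ := hF.entire.differentiableOn.analyticOnNhd isOpen_univ
  have h2 : AnalyticOnNhd ℂ G Set.univ := hG.entire.differentiableOn.analyticOnNhd isOpen_univ
  refine AnalyticOnNhd.eq_of_eventuallyEq h1 h2 (z₀ := 2) ?_
  have hopen : IsOpen {s : ℂ | 3 / 2 < s.re} := isOpen_lt continuous_const continuous_re
  have hmem : (2 : ℂ) ∈ {s : ℂ | 3 / 2 < s.re} := by
    show (3 / 2 : ℝ) < (2 : ℂ).re
    norm_num
  filter_upwards [hopen.mem_nhds hmem] with s hs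
  exact (hF.euler s hs).unique (hG.euler s hs)

theorem exists_twistedL {u : UpperHalfPlane → ℂ} {lam : ℂ} {c : ℕ → ℂ}
    (h : HM u lam c) (E : Type) [Field E] [NumberField E] (hE : Module.finrank ℚ E = 2) :
    ∃ F : ℂ → ℂ, IsTwistedL c E F ∧ F (1 / 2) = 0 := by
  obtain ⟨_, χ, hχ, hχ2, -, hχp⟩ := Run7.h992.OM.bridge E hE
  obtain ⟨F, hF, hsum, hF0⟩ := Run7.h788.OM.twist h _ χ hχ hχ2
  refine ⟨F, ⟨hF, fun s hs => ?_⟩, hF0⟩
  have hs0 : s ≠ 0 := by
    rintro rfl
    norm_num at hs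
  have hP := euler h χ hs0 (hsum s hs)
  convert hP using 1
  ext p
  rw [hχp p p.2, show Run7.h788.OM.eta E p = eta E p from rfl]
  congr 1
  have hp0 : ((p : ℕ) : ℂ) ≠ 0 := by exact_mod_cast p.2.ne_zero
  have e : ((p : ℕ) : ℂ) ^ (-2 * s) = (((p : ℕ) : ℂ) ^ (-s)) ^ 2 := by
    rw [← Complex.cpow_nat_mul]
    congr 1
    push_cast
    ring
  rw [e]
  ring

theorem isOddHeckeMaass_of {u : UpperHalfPlane → ℂ} {lam : ℂ} {c : ℕ → ℂ} (h : HM u lam c) :
    IsOddHeckeMaass (fun z => u (UpperHalfPlane.ofComplex z)) lam c := by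
  have hoc : ∀ {z : ℂ} (hz : 0 < z.im), ((UpperHalfPlane.ofComplex z : UpperHalfPlane) : ℂ) = z :=
    fun {z} hz => by rw [UpperHalfPlane.ofComplex_apply_of_im_pos hz]
  have htr : ∀ z : ℂ, 0 < z.im →
      u (UpperHalfPlane.ofComplex (z + 1)) = u (UpperHalfPlane.ofComplex z) := by
    intro z hz
    rw [← oi_per h.oi (UpperHalfPlane.ofComplex z)]
    congr 1
    apply UpperHalfPlane.ext
    have hz1 : 0 < (z + 1).im := by simpa using hz
    rw [hoc hz1, UpperHalfPlane.coe_vadd, hoc hz]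
    push_cast
    ring
  have hodd : ∀ z : ℂ, 0 < z.im → u (UpperHalfPlane.ofComplex (-(starRingEnd ℂ z))) =
      -u (UpperHalfPlane.ofComplex z) := by
    intro z hz
    rw [← h.oi.odd (UpperHalfPlane.ofComplex z)]
    congr 1
    apply UpperHalfPlane.ext
    have hz1 : 0 < (-(starRingEnd ℂ z)).im := by simpa using hz
    rw [hoc hz1, UpperHalfPlane.coe_J_smul, hoc hz]
  refine ⟨h.smooth, htr, ?_, hodd, h.lap, ?_, ?_, ?_, ?_⟩
  · intro z hz
    show u (UpperHalfPlane.ofComplex (-z⁻¹)) = u (UpperHalfPlane.ofComplex z)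
    rw [← h.oi.inv ModularGroup.S (UpperHalfPlane.ofComplex z)]
    congr 1
    apply UpperHalfPlane.ext
    have hz1 : 0 < (-z⁻¹).im := by
      rw [Complex.neg_im, Complex.inv_im]
      have : 0 < Complex.normSq z := Complex.normSq_pos.2 (by rintro rfl; simp at hz)
      have h2 : -(-z.im / Complex.normSq z) = z.im / Complex.normSq z := by ring
      rw [h2]
      positivity
    rw [hoc hz1, UpperHalfPlane.modular_S_smul, UpperHalfPlane.coe_mk, hoc hz, inv_neg]
  · intro y hy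
    have him : ∀ x : ℝ, 0 < ((x : ℂ) + (y : ℂ) * Complex.I).im := fun x => by simpa using hy
    set f : ℝ → ℂ := fun x => u (UpperHalfPlane.ofComplex ((x : ℂ) + (y : ℂ) * Complex.I)) with hf
    have h1 : ∀ x : ℝ, f (1 - x) = -f x := by
      intro x
      have e1 := htr _ (him (-x))
      have e2 := hodd _ (him x)
      have e3 : -(starRingEnd ℂ ((x : ℂ) + (y : ℂ) * Complex.I)) =
          ((-x : ℝ) : ℂ) + (y : ℂ) * Complex.I := by
        apply Complex.ext <;> simp
      rw [e3] at e2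
      have e4 : (((1 - x : ℝ) : ℂ)) + (y : ℂ) * Complex.I =
          ((-x : ℝ) : ℂ) + (y : ℂ) * Complex.I + 1 := by
        push_cast
        ring
      show u (UpperHalfPlane.ofComplex (((1 - x : ℝ) : ℂ) + (y : ℂ) * Complex.I)) = _
      rw [e4, e1, e2]
    have h2 : ∫ x in (0 : ℝ)..1, f (1 - x) = ∫ x in (0 : ℝ)..1, f x := by
      rw [intervalIntegral.integral_comp_sub_left f 1]
      norm_num
    simp only [h1] at h2
    rw [intervalIntegral.integral_neg] at h2
    exact self_eq_neg.mp h2.symm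
  · obtain ⟨C, hC⟩ := h.bd
    exact ⟨C, fun z _ => hC _⟩
  · obtain ⟨z, hz⟩ := h.ne
    refine ⟨z, z.im_pos, ?_⟩
    rwa [UpperHalfPlane.ofComplex_apply]
  · intro n hn z hz
    have h1 := h.hecke n hn (UpperHalfPlane.ofComplex z)
    unfold hk at h1
    rw [hoc hz] at h1
    have hn0 : ((Real.sqrt n : ℝ) : ℂ) ≠ 0 := by
      have : (0 : ℝ) < Real.sqrt n := Real.sqrt_pos.2 (by exact_mod_cast hn)
      exact_mod_cast this.ne'
    rw [inv_mul_eq_iff_eq_mul₀ hn0] at h1
    rw [h1]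
    ring

theorem finite_X (x : ℝ) : Finite {E : X // |(discr E.1 : ℝ)| < x} := by
  have h := NumberField.finite_of_discr_bdd ℂ (Nat.ceil x)
  have hf : Finite {K : { F : IntermediateField ℚ ℂ // FiniteDimensional ℚ F} |
      haveI :  NumberField K := @NumberField.mk _ _ inferInstance K.prop
      |discr K| ≤ (Nat.ceil x : ℕ)} := h
  refine Finite.of_injective (fun E => (⟨⟨E.1.1, (inferInstance : NumberField E.1.1).to_finiteDimensional⟩, ?_⟩ :
    {K : { F : IntermediateField ℚ ℂ // FiniteDimensional ℚ F} |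
      haveI :  NumberField K := @NumberField.mk _ _ inferInstance K.prop
      |discr K| ≤ (Nat.ceil x : ℕ)})) ?_
  · have h1 := E.2
    have h2 : |(discr E.1.1 : ℝ)| ≤ (Nat.ceil x : ℝ) := h1.le.trans (Nat.le_ceil x)
    show |discr E.1.1| ≤ ((Nat.ceil x : ℕ) : ℤ)
    exact_mod_cast h2
  · intro E1 E2 hE
    apply Subtype.ext
    apply Subtype.ext
    exact congrArg (fun K => K.1.1) hE

open Polynomial in
theorem exists_X : Nonempty X := by
  have hm : (Polynomial.X ^ 2 + 1 : ℚ[X]).Monic := by monicity!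
  have hdeg : (Polynomial.X ^ 2 + 1 : ℚ[X]).natDegree = 2 := by compute_degree!
  have hirr : Irreducible (Polynomial.X ^ 2 + 1 : ℚ[X]) := by
    refine Polynomial.irreducible_of_degree_le_three_of_not_isRoot (by rw [hdeg]; simp) ?_
    intro x hx
    have h : x ^ 2 + 1 = 0 := by simpa using hx
    nlinarith [sq_nonneg x]
  have hI : aeval Complex.I (Polynomial.X ^ 2 + 1 : ℚ[X]) = 0 := by simp
  have hmin : minpoly ℚ Complex.I = Polynomial.X ^ 2 + 1 :=
    (minpoly.eq_of_irreducible_of_monic hirr hI hm).symm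
  have hint : IsIntegral ℚ Complex.I := ⟨_, hm, by simp⟩
  exact ⟨⟨IntermediateField.adjoin ℚ {Complex.I}, by
    rw [IntermediateField.adjoin.finrank hint, hmin, hdeg]⟩⟩

/-- the converse of `isOddHeckeMaass_of` -/
theorem HM_of {U : ℂ → ℂ} {lam : ℂ} {c : ℕ → ℂ} (h : IsOddHeckeMaass U lam c) :
    HM (fun z : UpperHalfPlane => U z) lam c := by
  have hoc : ∀ {z : ℂ} (hz : 0 < z.im), ((UpperHalfPlane.ofComplex z : UpperHalfPlane) : ℂ) = z :=
    fun {z} hz => by rw [UpperHalfPlane.ofComplex_apply_of_im_pos hz]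
  have hSgen : ∀ z : UpperHalfPlane, U ((ModularGroup.S • z : UpperHalfPlane) : ℂ) = U z := by
    intro z
    rw [UpperHalfPlane.modular_S_smul, UpperHalfPlane.coe_mk, inv_neg]
    exact h.inversion z z.im_pos
  have hTgen : ∀ z : UpperHalfPlane, U ((ModularGroup.T • z : UpperHalfPlane) : ℂ) = U z := by
    intro z
    rw [UpperHalfPlane.modular_T_smul, UpperHalfPlane.coe_vadd, ← h.translation z z.im_pos]
    congr 1
    push_cast
    ring
  refine ⟨⟨?_, ?_⟩, ?_, ?_, ?_, ?_, ?_⟩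
  · intro g
    have hg : g ∈ Subgroup.closure ({ModularGroup.S, ModularGroup.T} :
        Set (Matrix.SpecialLinearGroup (Fin 2) ℤ)) := by
      rw [SpecialLinearGroup.SL2Z_generators]
      trivial
    induction hg using Subgroup.closure_induction with
    | mem x hx =>
      intro z
      rcases hx with rfl | rfl
      · exact hSgen z
      · exact hTgen z
    | one =>
      intro z
      rw [one_smul]
    | mul x y _ _ hx hy =>
      intro z
      rw [mul_smul]
      exact (hx _).trans (hy z)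
    | inv x _ hx =>
      intro z
      have h1 := hx (x⁻¹ • z)
      rw [smul_inv_smul] at h1
      exact h1.symm
  · intro z
    show U ((UpperHalfPlane.J • z : UpperHalfPlane) : ℂ) = - U z
    rw [UpperHalfPlane.coe_J_smul]
    exact h.odd z z.im_pos
  · obtain ⟨C, hC⟩ := h.bounded
    exact ⟨C, fun z => hC z z.im_pos⟩
  · obtain ⟨z, hz, hz0⟩ := h.nonzero
    exact ⟨⟨z, hz⟩, hz0⟩
  · exact h.smooth.congr fun z hz => by
      show U ((UpperHalfPlane.ofComplex z : UpperHalfPlane) : ℂ) = U z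
      rw [hoc hz]
  · intro z hz
    have key : ∀ g : ℝ → ℂ, Continuous g → g 0 = z →
        deriv (deriv fun t => U ((UpperHalfPlane.ofComplex (g t) : UpperHalfPlane) : ℂ)) 0 =
          deriv (deriv fun t => U (g t)) 0 := by
      intro g hg hg0
      have he : (fun t => U ((UpperHalfPlane.ofComplex (g t) : UpperHalfPlane) : ℂ)) =ᶠ[𝓝 0]
          fun t => U (g t) := by
        have ho : IsOpen {t : ℝ | 0 < (g t).im} :=
          isOpen_lt continuous_const (Complex.continuous_im.comp hg)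
        have hm : (0 : ℝ) ∈ {t : ℝ | 0 < (g t).im} := by
          show 0 < (g 0).im
          rw [hg0]
          exact hz
        filter_upwards [ho.mem_nhds hm] with t ht
        rw [hoc ht]
      exact he.deriv.deriv_eq
    have k1 := key (fun t => z + (t : ℂ)) (by fun_prop) (by simp)
    have k2 := key (fun t => z + (t : ℂ) * Complex.I) (by fun_prop) (by simp)
    show -((z.im : ℂ)) ^ 2 *
      (deriv (deriv fun t : ℝ => U ((UpperHalfPlane.ofComplex (z + (t : ℂ)) : UpperHalfPlane) : ℂ)) 0 +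
        deriv (deriv fun t : ℝ =>
          U ((UpperHalfPlane.ofComplex (z + (t : ℂ) * Complex.I) : UpperHalfPlane) : ℂ)) 0) =
      lam * U ((UpperHalfPlane.ofComplex z : UpperHalfPlane) : ℂ)
    rw [k1, k2, hoc hz]
    exact h.laplace z hz
  · intro n hn z
    have h1 := h.hecke n hn z z.im_pos
    have hn0 : ((Real.sqrt n : ℝ) : ℂ) ≠ 0 := by
      have : (0 : ℝ) < Real.sqrt n := Real.sqrt_pos.2 (by exact_mod_cast hn)
      exact_mod_cast this.ne'
    have h2 : ∑ d ∈ n.divisors, ∑ b ∈ Finset.range d,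
        U ((UpperHalfPlane.ofComplex ((((n / d : ℕ) : ℂ) * (z : ℂ) + (b : ℂ)) / (d : ℂ)) :
          UpperHalfPlane) : ℂ) =
        ∑ d ∈ n.divisors, ∑ b ∈ Finset.range d,
          U ((((n / d : ℕ) : ℂ) * (z : ℂ) + (b : ℂ)) / (d : ℂ)) := by
      refine Finset.sum_congr rfl fun d hd => Finset.sum_congr rfl fun b _ => ?_
      have hd0 : 0 < d := Nat.pos_of_mem_divisors hd
      have hnd : 0 < n / d := Nat.div_pos (Nat.divisor_le hd) hd0
      rw [hoc]
      have e : ((((n / d : ℕ) : ℂ) * (z : ℂ) + (b : ℂ)) / (d : ℂ)).im =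
          ((n / d : ℕ) : ℝ) * (z : ℂ).im / d := by
        rw [Complex.div_natCast_im]
        simp
      rw [e]
      have h3 : (0 : ℝ) < ((n / d : ℕ) : ℝ) := by exact_mod_cast hnd
      have h4 : (0 : ℝ) < (d : ℝ) := by exact_mod_cast hd0
      have h5 := z.im_pos
      have h6 : 0 < (z : ℂ).im := h5
      positivity
    show ((Real.sqrt n : ℝ) : ℂ)⁻¹ * _ = c n * U z
    rw [h2, h1]
    field_simp

theorem Npi_eq_zero {u : UpperHalfPlane → ℂ} {lam : ℂ} {c : ℕ → ℂ}
    (h : HM u lam c) (x : ℝ) : Npi c x = 0 := by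
  rw [Npi]
  have : IsEmpty {E : X // |(discr E.1 : ℝ)| < x ∧ ∃ F : ℂ → ℂ, IsTwistedL c E.1 F ∧ F (1 / 2) ≠ 0} := by
    refine ⟨?_⟩
    rintro ⟨E, -, F, hF, hF0⟩
    obtain ⟨G, hG, hG0⟩ := exists_twistedL h E.1 E.2
    rw [twistedL_unique hF hG] at hF0
    exact hF0 hG0
  exact Nat.card_of_isEmpty

theorem N_pos : ∀ᶠ x in atTop, 0 < N x := by
  obtain ⟨E⟩ := exists_X
  filter_upwards [eventually_gt_atTop |(discr E.1 : ℝ)|] with x hx
  have := finite_X x
  have : Nonempty {E : X // |(discr E.1 : ℝ)| < x} := ⟨⟨E, hx⟩⟩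
  exact Nat.card_pos

/-- **Disproof of Q1.** -/
theorem result :
    (∃ (U : ℂ → ℂ) (lam : ℂ) (c : ℕ → ℂ), IsOddHeckeMaass U lam c) ∧
    (∀ (U : ℂ → ℂ) (lam : ℂ) (c : ℕ → ℂ), IsOddHeckeMaass U lam c →
      (∀ E : X, ∃ F : ℂ → ℂ, IsTwistedL c E.1 F ∧ F (1 / 2) = 0) ∧
      (∀ x : ℝ, Npi c x = 0) ∧
      Tendsto (fun x => (Npi c x : ℝ) / N x) atTop (𝓝 0) ∧
      ¬ Tendsto (fun x => (Npi c x : ℝ) / N x) atTop (𝓝 (1 / 2))) ∧
    (∀ x : ℝ, Finite {E : X // |(discr E.1 : ℝ)| < x}) ∧ (∀ᶠ x in atTop, 0 < N x) := by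
  refine ⟨?_, ?_, finite_X, N_pos⟩
  · obtain ⟨u, lam, c, h⟩ := exists_HM
    exact ⟨_, lam, c, isOddHeckeMaass_of h⟩
  · intro U lam c hU
    have h := HM_of hU
    have h0 := Npi_eq_zero h
    have ht : Tendsto (fun x => (Npi c x : ℝ) / N x) atTop (𝓝 0) := by
      simp only [h0, Nat.cast_zero, zero_div]
      exact tendsto_const_nhds
    refine ⟨fun E => exists_twistedL h E.1 E.2, h0, ht, fun ht2 => ?_⟩
    have := tendsto_nhds_unique ht ht2
    norm_num at this

end Pool.Agent.Results.MP_17f4cb_nt.OddMaassForms
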